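import Mathlib

set_option autoImplicit false
open Finset

namespace Pool.Agent.Results.MP_c1c042_nt.NotOntoFinite

/-- The generalized Collatz mapping `T(x) = (m_i x - r_i) / d` for `x ≡ i (mod d)`. -/
def gcm (d : ℕ) (m r : ℕ → ℤ) (x : ℤ) : ℤ :=
  (m (x % (d : ℤ)).toNat * x - r (x % (d : ℤ)).toNat) / (d : ℤ)

/-- The transition probability `q_ij(M) = μ(B(i,M) ∩ T⁻¹ B(j,M)) / μ(B(i,M))`; the set in the
numerator is a union of classes modulo `d M`, so its measure is the number of those classes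
divided by `d M`. -/
def q (d : ℕ) (m r : ℕ → ℤ) (M : ℕ) (i j : Fin M) : ℚ :=
  ((((range (d * M)).filter (fun x : ℕ => (x : ℤ) ≡ (i.val : ℤ) [ZMOD (M : ℤ)] ∧
      gcm d m r (x : ℤ) ≡ (j.val : ℤ) [ZMOD (M : ℤ)])).card : ℚ) / ((d * M : ℕ) : ℚ)) /
    (1 / (M : ℚ))

/-- `C` is a closed communicating class of the chain with matrix `q d m r M`. -/
def IsRecurrentClass (d : ℕ) (m r : ℕ → ℤ) (M : ℕ) (C : Set (Fin M)) : Prop :=
  C.Nonempty ∧
    (∀ i ∈ C, ∀ j ∈ C, Relation.ReflTransGen (fun a b => 0 < q d m r M a b) i j) ∧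
    ∀ i ∈ C, ∀ j, 0 < q d m r M i j → j ∈ C

/-- The collection of ergodic sets `S_C`, over all moduli `M ≥ 2` and all closed communicating
classes `C`. -/
def ergodicSets (d : ℕ) (m r : ℕ → ℤ) : Set (Set ℤ) :=
  {S | ∃ M : ℕ, 2 ≤ M ∧ ∃ C : Set (Fin M), IsRecurrentClass d m r M C ∧
    S = {x : ℤ | ∃ i ∈ C, x ≡ (i.val : ℤ) [ZMOD (M : ℤ)]}}

/-- multipliers of the example -/
def m0 (_ : ℕ) : ℤ := 2
/-- shifts of the example -/
def r0 (i : ℕ) : ℤ := 2 * (i : ℤ)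

lemma gcm_eq (x : ℤ) : gcm 5 m0 r0 x = 2 * (x / 5) := by
  unfold gcm m0 r0
  have h : ((x % ((5 : ℕ) : ℤ)).toNat : ℤ) = x % 5 := by
    push_cast
    omega
  rw [h]
  push_cast
  omega

lemma q_pos_iff (M : ℕ) (hM : 2 ≤ M) (i j : Fin M) :
    0 < q 5 m0 r0 M i j ↔
      ∃ x : ℤ, x ≡ (i.val : ℤ) [ZMOD (M : ℤ)] ∧ 2 * (x / 5) ≡ (j.val : ℤ) [ZMOD (M : ℤ)] := by
  have hM0 : (0 : ℚ) < (M : ℚ) := by exact_mod_cast (by omega : 0 < M)
  have hM1 : (0 : ℚ) < ((5 * M : ℕ) : ℚ) := by exact_mod_cast (by omega : 0 < 5 * M)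
  unfold q
  rw [div_pos_iff_of_pos_right (by positivity), div_pos_iff_of_pos_right hM1, Nat.cast_pos,
    Finset.card_pos]
  constructor
  · rintro ⟨x, hx⟩
    rw [Finset.mem_filter, gcm_eq] at hx
    exact ⟨x, hx.2⟩
  · rintro ⟨x, h1, h2⟩
    have hp : (0 : ℤ) < 5 * (M : ℤ) := by omega
    have e0 := Int.emod_nonneg x hp.ne'
    have e1 := Int.emod_lt_of_pos x hp
    have e2 := Int.mul_ediv_add_emod x (5 * (M : ℤ))
    obtain ⟨y, hy⟩ := Int.eq_ofNat_of_zero_le e0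
    rw [hy] at e1 e2
    generalize x / (5 * (M : ℤ)) = t at e2
    refine ⟨y, ?_⟩
    rw [Finset.mem_filter, gcm_eq, Finset.mem_range]
    refine ⟨by omega, Int.ModEq.trans ?_ h1, Int.ModEq.trans ?_ h2⟩
    · rw [Int.modEq_iff_dvd]
      exact ⟨5 * t, by rw [← e2]; ring⟩
    · rw [Int.modEq_iff_dvd]
      refine ⟨2 * t, ?_⟩
      have : x / 5 = (y : ℤ) / 5 + (M : ℤ) * t := by
        rw [← e2, show 5 * (M : ℤ) * t + y = y + 5 * ((M : ℤ) * t) by ring]
        omega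
      rw [this]; ring

lemma class_cases (M : ℕ) (hM : 2 ≤ M) (C : Set (Fin M)) (hC : IsRecurrentClass 5 m0 r0 M C) :
    {x : ℤ | ∃ i ∈ C, x ≡ (i.val : ℤ) [ZMOD (M : ℤ)]} = Set.univ ∨
      {x : ℤ | ∃ i ∈ C, x ≡ (i.val : ℤ) [ZMOD (M : ℤ)]} = {x : ℤ | x % 2 = 0} := by
  obtain ⟨⟨i0, hi0⟩, hcomm, hclosed⟩ := hC
  set S : Set ℤ := {x : ℤ | ∃ i ∈ C, x ≡ (i.val : ℤ) [ZMOD (M : ℤ)]} with hS
  have hp : (0 : ℤ) < (M : ℤ) := by omega
  have hshift : ∀ x ∈ S, ∀ t : ℤ, x + (M : ℤ) * t ∈ S := by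
    rintro x ⟨i, hi, hx⟩ t
    refine ⟨i, hi, Int.ModEq.trans ?_ hx⟩
    rw [Int.modEq_iff_dvd]
    exact ⟨-t, by ring⟩
  have hT : ∀ x ∈ S, 2 * (x / 5) ∈ S := by
    rintro x ⟨i, hi, hx⟩
    have e0 := Int.emod_nonneg (2 * (x / 5)) hp.ne'
    have e1 := Int.emod_lt_of_pos (2 * (x / 5)) hp
    obtain ⟨y, hy⟩ := Int.eq_ofNat_of_zero_le e0
    have hj : 2 * (x / 5) ≡ ((⟨y, by omega⟩ : Fin M).val : ℤ) [ZMOD (M : ℤ)] := by
      change 2 * (x / 5) ≡ (y : ℤ) [ZMOD (M : ℤ)]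
      rw [← hy]
      exact (Int.mod_modEq _ _).symm
    exact ⟨_, hclosed i hi _ ((q_pos_iff M hM _ _).2 ⟨x, hx, hj⟩), hj⟩
  have h0 : (0 : ℤ) ∈ S := by
    have key : ∀ n : ℕ, (n : ℤ) ∈ S → (0 : ℤ) ∈ S := by
      intro n
      induction n using Nat.strong_induction_on with
      | _ n ih =>
        intro hn
        rcases Nat.eq_zero_or_pos n with rfl | hpos
        · exact_mod_cast hn
        · refine ih (2 * (n / 5)) (by omega) ?_
          have := hT _ hn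
          push_cast
          exact this
    exact key i0.val ⟨i0, hi0, Int.ModEq.refl _⟩
  have heven : ∀ y : ℤ, 2 * y ∈ S := by
    intro y
    have key : ∀ L : ℕ, ∃ a : ℤ, ∀ z : ℤ, a ≤ z → z ≤ a + L → 2 * z ∈ S → 2 * y ∈ S := by
      intro L
      induction L with
      | zero =>
        refine ⟨y, fun z h1 h2 h => ?_⟩
        have : z = y := by omega
        rwa [this] at h
      | succ L ih =>
        obtain ⟨a, ha⟩ := ih
        refine ⟨(5 * a + 1) / 2, fun z h1 h2 h => ha (2 * z / 5) (by omega) (by omega) (hT _ h)⟩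
    obtain ⟨a, ha⟩ := key M
    have e0 := Int.emod_nonneg (-a) hp.ne'
    have e1 := Int.emod_lt_of_pos (-a) hp
    have e2 := Int.mul_ediv_add_emod (-a) (M : ℤ)
    refine ha (a + (-a) % (M : ℤ)) (by omega) (by omega) ?_
    have := hshift 0 h0 (-(2 * (-a / (M : ℤ))))
    rwa [show (0 : ℤ) + (M : ℤ) * -(2 * (-a / (M : ℤ))) = 2 * (a + (-a) % (M : ℤ)) by
      linear_combination (-2) * e2] at this
  rcases Nat.even_or_odd' M with ⟨k, hk | hk⟩
  · right
    ext x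
    constructor
    · rintro ⟨j, hj, hx⟩
      obtain ⟨i, hi, h00⟩ := h0
      have hje : (j.val : ℤ) % 2 = 0 := by
        rcases (hcomm i hi j hj).cases_tail with h | ⟨c, -, hc⟩
        · obtain ⟨t, ht⟩ := Int.modEq_iff_dvd.1 h00
          rw [h]
          have : (i.val : ℤ) = 2 * ((k : ℤ) * t) := by
            have hk' : (M : ℤ) = 2 * k := by exact_mod_cast hk
            linear_combination ht + hk' * t
          omega
        · obtain ⟨z, -, hz⟩ := (q_pos_iff M hM _ _).1 hc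
          obtain ⟨t, ht⟩ := Int.modEq_iff_dvd.1 hz
          have : (j.val : ℤ) = 2 * (z / 5 + (k : ℤ) * t) := by
            have hk' : (M : ℤ) = 2 * k := by exact_mod_cast hk
            linear_combination ht + hk' * t
          omega
      obtain ⟨t, ht⟩ := Int.modEq_iff_dvd.1 hx
      have : x = (j.val : ℤ) - 2 * ((k : ℤ) * t) := by
        have hk' : (M : ℤ) = 2 * k := by exact_mod_cast hk
        linear_combination -ht - hk' * t
      change x % 2 = 0
      omega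
    · intro hx
      have hx' : x % 2 = 0 := hx
      have := heven (x / 2)
      rwa [show 2 * (x / 2) = x by omega] at this
  · left
    refine Set.eq_univ_of_forall fun x => ?_
    have hk' : (M : ℤ) = 2 * k + 1 := by exact_mod_cast hk
    have := hshift _ (heven (-(k * x))) x
    rwa [show 2 * (-((k : ℤ) * x)) + (M : ℤ) * x = x by rw [hk']; ring] at this

/-- The equivalence fails: `T(x) = 2 ⌊x / 5⌋` is of relatively prime type, is not onto, and has
only two ergodic sets (all integers, and the even integers). -/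
theorem result :
    ¬ ∀ (d : ℕ) (m r : ℕ → ℤ), 2 ≤ d → (∀ i < d, m i ≠ 0) →
      (∀ i < d, r i ≡ (i : ℤ) * m i [ZMOD (d : ℤ)]) →
      Int.gcd (∏ i ∈ range d, m i) (d : ℤ) = 1 →
      ((ergodicSets d m r).Finite ↔ Function.Surjective (gcm d m r)) := by
  intro h
  have h1 := h 5 m0 r0 (by norm_num) (fun i _ => by simp [m0])
    (fun i _ => by unfold m0 r0; rw [mul_comm]) (by decide)
  have hfin : (ergodicSets 5 m0 r0).Finite := by
    refine Set.Finite.subset (Set.toFinite ({Set.univ, {x : ℤ | x % 2 = 0}} : Set (Set ℤ))) ?_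
    rintro S ⟨M, hM, C, hC, rfl⟩
    exact class_cases M hM C hC
  obtain ⟨x, hx⟩ := h1.1 hfin 1
  rw [gcm_eq] at hx
  omega

end Pool.Agent.Results.MP_c1c042_nt.NotOntoFinite
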